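import Pool.Agent.Run7.h700.VU.P2b
import Pool.Agent.Run7.h260.VU.Iface

/-!
# Project VU, piece P2 (wrapper)
-/

set_option autoImplicit false

namespace Run7.h700.VU

theorem t_P2 : Run7.h260.VU.S_P2 := p2

end Run7.h700.VU
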