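import Pool.Agent.Run7.h260.VC.F2
import Pool.Agent.Run7.h260.VC.F4

/-!
# Project VU, piece P2: the gap of the far configurations does not depend on `n` (without the interface)
-/

set_option autoImplicit false

namespace Run7.h700.VU

open Filter Topology Metric MeasureTheory Pool.Agent.W711.HT Pool.Agent.Y472.K
open Run7.h260.VC
open GapVol (lob)
open scoped Real

/-- `VC.far_bd` with a given gap of the pairs -/
theorem far_bd' {ρ κ : ℝ} (hκ : 0 < κ)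
    (hgap : ∀ x a b : ℝ, 0 ≤ b → b ≤ a → a ≤ 1 → |x| ≤ π →
      (ρ ≤ |x| ∨ ρ ≤ |a - 2 / 3| ∨ ρ ≤ |b - 1 / 3|) → E0 x a b ≤ 3 * lob (π / 3) / π - κ)
    (n : ℕ) [NeZero n] : ∃ τ : ℝ, 0 < τ ∧ ∀ᶠ N : ℕ in atTop,
    ∀ i j : Fin n → ℕ, Ok n N i j → ∀ χ : ℂ, |χ.re| ≤ π → |χ.im| ≤ τ →
      (ρ ≤ |χ.re| ∨ ∃ r, ρ ≤ |(i r : ℝ) / N - 2 / 3| ∨ ρ ≤ |(j r : ℝ) / N - 1 / 3|) →
      ‖co n N i j * Qc n N i j χ‖ ≤ Real.exp (N * (6 * n * lob (π / 3) / π - κ / 4)) := by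
  have hnn : (0 : ℝ) < n := by exact_mod_cast Nat.pos_of_ne_zero (NeZero.ne n)
  set τ : ℝ := κ / (4 * n) with hτ
  have hτ0 : 0 < τ := by positivity
  obtain ⟨C, hC, hQ⟩ := Pool.Agent.Y220.TK.qb τ hτ0
  have hpoly : ∀ᶠ N : ℕ in atTop, C ^ n ≤ Real.exp (N * (κ / 8)) := by
    have h1 : Tendsto (fun N : ℕ => Real.exp (N * (κ / 8))) atTop atTop :=
      Real.tendsto_exp_atTop.comp (tendsto_natCast_atTop_atTop.atTop_mul_const (by positivity))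
    exact h1.eventually_ge_atTop _
  refine ⟨τ, hτ0, ?_⟩
  filter_upwards [Pool.Agent.Y681.TK.t_SB (κ / (8 * n)) (by positivity), hpoly, eventually_ge_atTop 1]
    with N h1 h2 h3 i j hij χ hre him hfar
  have hN' : (0 : ℝ) < N := by exact_mod_cast h3
  have e1 := Pool.Agent.Y100.TK.co_bd h1 hij
  have e2 := Pool.Agent.Y100.TK.Qc_bd (x := χ.re) (fun j i => hQ N h3 j i) hij
  have e3 : ‖Qc n N i j χ‖ ≤ ‖Qc n N i j (χ.re + τ * Complex.I)‖ := by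
    have h4 := Qc_mono (n := n) (N := N) (i := i) (j := j) (x := χ.re) (y := χ.im) (y' := τ)
      (by rwa [abs_of_pos hτ0])
    rwa [Complex.re_add_im] at h4
  have hP : PO n (fun r => (i r : ℝ) / N) (fun r => (j r : ℝ) / N) := by
    refine ⟨fun r => by positivity, fun r => ?_, fun r => ?_, fun r => ?_⟩
    · rw [div_le_one hN']
      exact_mod_cast (hij.lt r).le
    · exact div_le_div_of_nonneg_right (by exact_mod_cast hij.le r) hN'.le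
    · exact div_le_div_of_nonneg_right (by exact_mod_cast hij.le' r) hN'.le
  have e4 := sum_Ep_le (n := n) hτ0 hP hre hκ.le hgap hfar
  have e5 := Pool.Agent.Y100.TK.HH_eq (n := n) hτ0 χ.re (fun r => (i r : ℝ) / N) (fun r => (j r : ℝ) / N)
  unfold Pool.Agent.Y472.K.HH at e5
  set L : ℝ := ∑ r, (Lc ((i r : ℝ) / N - (j r : ℝ) / N) +
      Lc ((i (r + 1) : ℝ) / N - (j r : ℝ) / N)) with hL
  set J : ℝ := ∑ r, ∫ t in ((j r : ℝ) / N)..((i (r + 1) : ℝ) / N), lf χ.re τ t with hJ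
  set H : ℝ := ∑ r, (Ep χ.re τ ((i r : ℝ) / N) ((j r : ℝ) / N) +
    Ep χ.re τ ((i (r + 1) : ℝ) / N) ((j r : ℝ) / N)) with hH
  have e6 : 2 * (n : ℝ) * (κ / (8 * n)) = κ / 4 := by
    field_simp
    ring
  rw [e6] at e1
  have e7 : (n : ℝ) * τ = κ / 4 := by
    rw [hτ]; field_simp
  rw [e7] at e4
  rw [norm_mul]
  calc ‖co n N i j‖ * ‖Qc n N i j χ‖
      ≤ Real.exp (N * (L + κ / 4)) * (Real.exp (N * (κ / 8)) * Real.exp (N * J)) := by
        refine mul_le_mul e1 ((e3.trans e2).trans ?_) (norm_nonneg _) (Real.exp_pos _).le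
        gcongr
    _ = Real.exp (N * (L + J + 3 * κ / 8)) := by
        rw [← Real.exp_add, ← Real.exp_add]
        congr 1
        ring
    _ ≤ _ := by
        refine Real.exp_le_exp.2 (mul_le_mul_of_nonneg_left ?_ hN'.le)
        have : L + J = H := by linarith
        rw [this]
        linarith

/-- the statement of `S_P2` -/
theorem p2 : ∀ ρ : ℝ, 0 < ρ → ∃ κ : ℝ, 0 < κ ∧ ∀ (n : ℕ) [NeZero n], ∃ τ : ℝ, 0 < τ ∧ ∀ᶠ N : ℕ in atTop, ∀ i j : Fin n → ℕ, Ok n N i j → ∀ χ : ℂ, |χ.re| ≤ π → |χ.im| ≤ τ → (ρ ≤ |χ.re| ∨ ∃ r, ρ ≤ |(i r : ℝ) / N - 2 / 3| ∨ ρ ≤ |(j r : ℝ) / N - 1 / 3|) → ‖co n N i j * Qc n N i j χ‖ ≤ Real.exp (N * (G0 n - κ)) := by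
  intro ρ hρ
  obtain ⟨κ, hκ, hgap⟩ := E0_gap hρ
  refine ⟨κ / 4, by positivity, fun n _ => ?_⟩
  obtain ⟨τ, hτ, h⟩ := far_bd' hκ hgap n
  refine ⟨τ, hτ, ?_⟩
  filter_upwards [h] with N h1 i j hij χ hre him hfar
  have h2 := h1 i j hij χ hre him hfar
  unfold G0
  exact h2

end Run7.h700.VU
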